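import Mathlib

/-!
# The saddle point lemma [SP] for MP_ea8a26_gt, project [EV]

A polynomial with nonnegative real coefficients which on a circle of radius `r` is locally
close to a Gaussian of variance `V` centred at `k` and exponentially small in `V` away from
the positive real axis satisfies `p_(k-1) p_(k+1) < p_k ^ 2`, once `V` is large (explicitly).
-/

namespace Helper92.EV

open Real MeasureTheory Set Polynomial

/-! ### Coefficients as integrals over the half circle -/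

theorem integral_cos_int (n : ℤ) :
    ∫ x in (0:ℝ)..π, cos ((n:ℝ) * x) = if n = 0 then π else 0 := by
  split_ifs with h
  · subst h; simp
  · have hn : (n:ℝ) ≠ 0 := by exact_mod_cast h
    rw [intervalIntegral.integral_comp_mul_left (fun y => cos y) hn, integral_cos]
    have : sin ((n:ℝ) * π) = 0 := Real.sin_int_mul_pi n
    rw [this]; simp

theorem integral_cos_mul_one_sub_cos (n : ℤ) :
    ∫ x in (0:ℝ)..π, cos ((n:ℝ) * x) * (1 - cos x) =
      (if n = 0 then π else 0) - ((if n + 1 = 0 then π else 0) + (if n - 1 = 0 then π else 0)) / 2 := by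
  have h : ∀ x : ℝ, cos ((n:ℝ) * x) * (1 - cos x) =
      cos ((n:ℝ) * x) - (cos (((n + 1 : ℤ):ℝ) * x) + cos (((n - 1 : ℤ):ℝ) * x)) / 2 := by
    intro x
    push_cast
    have h1 : ((n:ℝ) + 1) * x = (n:ℝ) * x + x := by ring
    have h2 : ((n:ℝ) - 1) * x = (n:ℝ) * x - x := by ring
    rw [h1, h2, cos_add, cos_sub]
    ring
  simp_rw [h]
  have hi : ∀ m : ℤ, IntervalIntegrable (fun x : ℝ => cos ((m:ℝ) * x)) volume 0 π := by
    intro m
    apply Continuous.intervalIntegrable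
    fun_prop
  rw [intervalIntegral.integral_sub (hi n) (((hi (n+1)).add (hi (n-1))).div_const 2),
    intervalIntegral.integral_div, intervalIntegral.integral_add (hi (n+1)) (hi (n-1)),
    integral_cos_int, integral_cos_int, integral_cos_int]

/-- the centred circle function -/
noncomputable def circ (p : ℝ[X]) (r : ℝ) (k : ℕ) (x : ℝ) : ℝ :=
  ((aeval ((r:ℂ) * Complex.exp ((x:ℂ) * Complex.I)) p) *
    Complex.exp (-(((k:ℂ) * (x:ℂ)) * Complex.I))).re

theorem circ_eq_sum (p : ℝ[X]) (r : ℝ) (k : ℕ) (x : ℝ) :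
    circ p r k x = ∑ j ∈ Finset.range (p.natDegree + k + 2),
      p.coeff j * r ^ j * cos ((((j:ℤ) - (k:ℤ) : ℤ):ℝ) * x) := by
  unfold circ
  rw [Polynomial.aeval_eq_sum_range' (n := p.natDegree + k + 2) (by omega), Finset.sum_mul,
    Complex.re_sum]
  refine Finset.sum_congr rfl fun j _ => ?_
  have h : p.coeff j • ((r:ℂ) * Complex.exp ((x:ℂ) * Complex.I)) ^ j *
      Complex.exp (-(((k:ℂ) * (x:ℂ)) * Complex.I)) =
      ((p.coeff j * r ^ j : ℝ):ℂ) *
        Complex.exp ((((((j:ℤ) - (k:ℤ) : ℤ):ℝ) * x : ℝ):ℂ) * Complex.I) := by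
    rw [mul_pow, ← Complex.exp_nat_mul, Complex.real_smul]
    push_cast
    rw [mul_assoc, mul_assoc, ← Complex.exp_add, ← mul_assoc]
    congr 2
    ring
  rw [h, Complex.re_ofReal_mul, Complex.exp_ofReal_mul_I_re]

theorem continuous_circ (p : ℝ[X]) (r : ℝ) (k : ℕ) : Continuous (circ p r k) := by
  have : circ p r k = fun x => ∑ j ∈ Finset.range (p.natDegree + k + 2),
      p.coeff j * r ^ j * cos ((((j:ℤ) - (k:ℤ) : ℤ):ℝ) * x) := by
    funext x; exact circ_eq_sum p r k x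
  rw [this]
  fun_prop

theorem integral_circ (p : ℝ[X]) (r : ℝ) (k : ℕ) (hk : 1 ≤ k) :
    ∫ x in (0:ℝ)..π, circ p r k x * (1 - cos x) =
      π * (p.coeff k * r ^ k -
        (p.coeff (k - 1) * r ^ (k - 1) + p.coeff (k + 1) * r ^ (k + 1)) / 2) := by
  have h1 : ∀ x : ℝ, circ p r k x * (1 - cos x) = ∑ j ∈ Finset.range (p.natDegree + k + 2),
      (p.coeff j * r ^ j) * (cos ((((j:ℤ) - (k:ℤ) : ℤ):ℝ) * x) * (1 - cos x)) := by
    intro x
    rw [circ_eq_sum, Finset.sum_mul]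
    refine Finset.sum_congr rfl fun j _ => ?_
    ring
  simp_rw [h1]
  rw [intervalIntegral.integral_finsetSum]
  swap
  · intro j _
    apply Continuous.intervalIntegrable
    fun_prop
  simp_rw [intervalIntegral.integral_const_mul, integral_cos_mul_one_sub_cos]
  have h2 : ∀ j ∈ Finset.range (p.natDegree + k + 2), p.coeff j * r ^ j *
      ((if (j:ℤ) - (k:ℤ) = 0 then π else 0) -
        ((if (j:ℤ) - (k:ℤ) + 1 = 0 then π else 0) +
          (if (j:ℤ) - (k:ℤ) - 1 = 0 then π else 0)) / 2) =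
      (if j = k then π * (p.coeff k * r ^ k) else 0) -
        ((if j = k - 1 then π * (p.coeff (k-1) * r ^ (k-1)) else 0) +
          (if j = k + 1 then π * (p.coeff (k+1) * r ^ (k+1)) else 0)) / 2 := by
    intro j _
    rcases eq_or_ne j k with h | h
    · subst h
      have e1 : ¬ (j = j - 1) := by omega
      have e2 : ¬ (j = j + 1) := by omega
      simp [e1]
      ring
    · rcases eq_or_ne j (k - 1) with h' | h'
      · have e1 : ((j:ℤ) - (k:ℤ) = 0) ↔ False := by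
          constructor
          · intro hh; omega
          · exact False.elim
        have e2 : ((j:ℤ) - (k:ℤ) + 1 = 0) ↔ True := by
          constructor
          · intro _; trivial
          · intro _; omega
        have e3 : ((j:ℤ) - (k:ℤ) - 1 = 0) ↔ False := by
          constructor
          · intro hh; omega
          · exact False.elim
        have e4 : (j = k) ↔ False := by simpa using h
        have e5 : (j = k + 1) ↔ False := by
          constructor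
          · intro hh; omega
          · exact False.elim
        simp only [e1, e2, e3, e4, e5, if_true, if_false, ← h']
        ring
      · rcases eq_or_ne j (k + 1) with h'' | h''
        · have e1 : ((j:ℤ) - (k:ℤ) = 0) ↔ False := by
            constructor
            · intro hh; omega
            · exact False.elim
          have e2 : ((j:ℤ) - (k:ℤ) - 1 = 0) ↔ True := by
            constructor
            · intro _; trivial
            · intro _; omega
          have e3 : ((j:ℤ) - (k:ℤ) + 1 = 0) ↔ False := by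
            constructor
            · intro hh; omega
            · exact False.elim
          have e4 : (j = k) ↔ False := by simpa using h
          have e5 : (j = k - 1) ↔ False := by simpa using h'
          simp only [e1, e2, e3, e4, e5, if_true, if_false, ← h'']
          ring
        · have e1 : ((j:ℤ) - (k:ℤ) = 0) ↔ False := by
            constructor
            · intro hh; omega
            · exact False.elim
          have e2 : ((j:ℤ) - (k:ℤ) - 1 = 0) ↔ False := by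
            constructor
            · intro hh; omega
            · exact False.elim
          have e3 : ((j:ℤ) - (k:ℤ) + 1 = 0) ↔ False := by
            constructor
            · intro hh; omega
            · exact False.elim
          have e4 : (j = k) ↔ False := by simpa using h
          have e5 : (j = k - 1) ↔ False := by simpa using h'
          have e6 : (j = k + 1) ↔ False := by simpa using h''
          simp only [e1, e2, e3, e4, e5, e6, if_false]
          ring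
  rw [Finset.sum_congr rfl h2, Finset.sum_sub_distrib, ← Finset.sum_div, Finset.sum_add_distrib,
    Finset.sum_ite_eq', Finset.sum_ite_eq', Finset.sum_ite_eq']
  rw [if_pos (Finset.mem_range.2 (by omega)), if_pos (Finset.mem_range.2 (by omega)),
    if_pos (Finset.mem_range.2 (by omega))]
  ring

/-! ### Elementary Gaussian bounds -/

theorem gauss_moment (V d : ℝ) (hV : 0 < V) :
    ∫ x in (0:ℝ)..d, x ^ 5 * exp (-(V * x ^ 2 / 4)) ≤ 64 / V ^ 3 := by
  have hder : ∀ x ∈ uIcc (0:ℝ) d, HasDerivAt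
      (fun x : ℝ => -(2 / V) * exp (-(V * x ^ 2 / 4)) * (x ^ 4 + 8 * x ^ 2 / V + 32 / V ^ 2))
      (x ^ 5 * exp (-(V * x ^ 2 / 4))) x := by
    intro x _
    have h0 : HasDerivAt (fun x : ℝ => x ^ 2) (2 * x) x := by simpa using hasDerivAt_pow 2 x
    have h1 : HasDerivAt (fun x : ℝ => -(V * x ^ 2 / 4)) (-(V * (2 * x) / 4)) x :=
      ((h0.const_mul V).div_const 4).neg
    have h2 := h1.exp
    have a1 : HasDerivAt (fun x : ℝ => x ^ 4) (4 * x ^ 3) x := by simpa using hasDerivAt_pow 4 x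
    have a2 : HasDerivAt (fun x : ℝ => 8 * x ^ 2 / V) (8 * (2 * x) / V) x :=
      (h0.const_mul 8).div_const V
    have h3 : HasDerivAt (fun x : ℝ => x ^ 4 + 8 * x ^ 2 / V + 32 / V ^ 2)
        (4 * x ^ 3 + 8 * (2 * x) / V) x := (a1.add a2).add_const (32 / V ^ 2)
    have h4 : HasDerivAt
        (fun x : ℝ => -(2 / V) * exp (-(V * x ^ 2 / 4)) * (x ^ 4 + 8 * x ^ 2 / V + 32 / V ^ 2))
        (-(2 / V) * (exp (-(V * x ^ 2 / 4)) * -(V * (2 * x) / 4)) *
          (x ^ 4 + 8 * x ^ 2 / V + 32 / V ^ 2) +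
          -(2 / V) * exp (-(V * x ^ 2 / 4)) * (4 * x ^ 3 + 8 * (2 * x) / V)) x :=
      (h2.const_mul (-(2 / V))).mul h3
    refine h4.congr_deriv ?_
    field_simp
    ring
  have hint : IntervalIntegrable (fun x : ℝ => x ^ 5 * exp (-(V * x ^ 2 / 4))) volume 0 d := by
    apply Continuous.intervalIntegrable
    fun_prop
  rw [intervalIntegral.integral_eq_sub_of_hasDerivAt hder hint]
  have h5 : 0 ≤ (2 / V) * exp (-(V * d ^ 2 / 4)) * (d ^ 4 + 8 * d ^ 2 / V + 32 / V ^ 2) := by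
    positivity
  have h6 : -(2 / V) * exp (-(V * (0:ℝ) ^ 2 / 4)) * ((0:ℝ) ^ 4 + 8 * (0:ℝ) ^ 2 / V + 32 / V ^ 2) =
      -(64 / V ^ 3) := by
    simp
    field_simp
    ring
  rw [h6]
  linarith

theorem one_sub_cos_lower {x : ℝ} (h0 : 0 ≤ x) (hx : x ≤ π) : x ^ 2 / 5 ≤ 1 - cos x := by
  have h := Real.cos_le_one_sub_mul_cos_sq (x := x) (by rw [abs_of_nonneg h0]; exact hx)
  have hpi : π ^ 2 < 10 := by
    have := Real.pi_lt_d2
    nlinarith [Real.pi_pos]
  have h1 : (1:ℝ) / 5 ≤ 2 / π ^ 2 := by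
    rw [div_le_div_iff₀ (by norm_num) (by positivity)]
    linarith
  nlinarith [sq_nonneg x]

theorem one_sub_cos_upper (x : ℝ) : 1 - cos x ≤ x ^ 2 / 2 := by
  have := Real.one_sub_sq_div_two_le_cos (x := x)
  linarith

theorem gauss_main (v d : ℝ) (hv : 0 < v) (hd : 1 / v ≤ d) (hd1 : d ≤ 1) :
    1 / (30 * v ^ 3) ≤ ∫ x in (0:ℝ)..d, exp (-(v ^ 2 * x ^ 2 / 2)) * (1 - cos x) := by
  have hpi := Real.pi_gt_three
  have h0 : (0:ℝ) ≤ 1 / v := by positivity
  have hi : ∀ a b : ℝ, IntervalIntegrable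
      (fun x : ℝ => exp (-(v ^ 2 * x ^ 2 / 2)) * (1 - cos x)) volume a b := by
    intro a b
    apply Continuous.intervalIntegrable
    fun_prop
  have hsplit := intervalIntegral.integral_add_adjacent_intervals (hi 0 (1 / v)) (hi (1 / v) d)
  have hpos : 0 ≤ ∫ x in (1 / v)..d, exp (-(v ^ 2 * x ^ 2 / 2)) * (1 - cos x) := by
    apply intervalIntegral.integral_nonneg hd
    intro x _
    have := Real.cos_le_one x
    have := exp_pos (-(v ^ 2 * x ^ 2 / 2))
    apply mul_nonneg this.le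
    linarith
  have hlow : ∫ x in (0:ℝ)..(1 / v), (1 / 10) * x ^ 2 ≤
      ∫ x in (0:ℝ)..(1 / v), exp (-(v ^ 2 * x ^ 2 / 2)) * (1 - cos x) := by
    apply intervalIntegral.integral_mono_on h0
    · apply Continuous.intervalIntegrable; fun_prop
    · exact hi _ _
    · intro x hx
      have hx0 := hx.1
      have hx1 := hx.2
      have h1 : x ^ 2 / 5 ≤ 1 - cos x := one_sub_cos_lower hx0 (by linarith)
      have h2 : v * x ≤ 1 := by
        have : v * x ≤ v * (1 / v) := by gcongr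
        rwa [mul_one_div_cancel hv.ne'] at this
      have h3 : v ^ 2 * x ^ 2 ≤ 1 := by
        have : (v * x) ^ 2 ≤ 1 := by
          have h4 : 0 ≤ v * x := by positivity
          nlinarith
        nlinarith
      have h5 : 1 / 2 ≤ exp (-(v ^ 2 * x ^ 2 / 2)) := by
        have := Real.add_one_le_exp (-(v ^ 2 * x ^ 2 / 2))
        linarith
      have h6 : 0 ≤ x ^ 2 / 5 := by positivity
      calc (1 / 10) * x ^ 2 = 1 / 2 * (x ^ 2 / 5) := by ring
        _ ≤ exp (-(v ^ 2 * x ^ 2 / 2)) * (1 - cos x) := by gcongr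
  have hval : ∫ x in (0:ℝ)..(1 / v), (1 / 10) * x ^ 2 = 1 / (30 * v ^ 3) := by
    rw [intervalIntegral.integral_const_mul, integral_pow]
    have hv3 : v ^ 3 ≠ 0 := by positivity
    rw [one_div_pow]
    norm_num
    field_simp
    norm_num
  rw [hval] at hlow
  linarith

theorem exp_tail (c v : ℝ) (hc : 0 < c) (hv : 0 < v) :
    exp (-(c * v ^ 2)) ≤ 2 / (c ^ 2 * v ^ 4) := by
  have h := Real.quadratic_le_exp_of_nonneg (x := c * v ^ 2) (by positivity)
  have h1 : c ^ 2 * v ^ 4 / 2 ≤ exp (c * v ^ 2) := by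
    have : (c * v ^ 2) ^ 2 / 2 = c ^ 2 * v ^ 4 / 2 := by ring
    have h2 : 0 ≤ c * v ^ 2 := by positivity
    linarith
  rw [Real.exp_neg]
  rw [show 2 / (c ^ 2 * v ^ 4) = (c ^ 2 * v ^ 4 / 2)⁻¹ by rw [inv_div]]
  exact inv_anti₀ (by positivity) h1

/-! ### The core estimate -/

/-- local lower bound for the centred circle function -/
theorem circ_local (p : ℝ[X]) (r V C x : ℝ) (k : ℕ) (hP : 0 ≤ p.eval r) (hV : 0 ≤ V)
    (hCx : C * x ≤ 1 / 4)
    (l : ℂ) (hl : ‖l‖ ≤ C * V * x ^ 3)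
    (h : aeval ((r:ℂ) * Complex.exp ((x:ℂ) * Complex.I)) p =
      ((p.eval r : ℝ):ℂ) * Complex.exp (((k:ℂ) * (x:ℂ)) * Complex.I - ((V * x ^ 2 / 2 : ℝ):ℂ) + l)) :
    p.eval r * (exp (-(V * x ^ 2 / 2)) - C * V * x ^ 3 * exp (-(V * x ^ 2 / 4))) ≤ circ p r k x := by
  have h1 : circ p r k x = p.eval r * (exp (-(V * x ^ 2 / 2)) * (Complex.exp l).re) := by
    unfold circ
    rw [h, mul_assoc, ← Complex.exp_add]
    have : ((k:ℂ) * (x:ℂ)) * Complex.I - ((V * x ^ 2 / 2 : ℝ):ℂ) + l +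
        -(((k:ℂ) * (x:ℂ)) * Complex.I) = ((-(V * x ^ 2 / 2) : ℝ):ℂ) + l := by
      push_cast; ring
    rw [this, Complex.exp_add, ← Complex.ofReal_exp, Complex.re_ofReal_mul, Complex.re_ofReal_mul]
  rw [h1]
  apply mul_le_mul_of_nonneg_left _ hP
  have h2 := Complex.norm_exp_sub_sum_le_norm_mul_exp l 1
  simp only [Finset.range_one, Finset.sum_singleton, pow_zero, Nat.factorial_zero, Nat.cast_one,
    div_one, pow_one] at h2
  have h3 : 1 - (Complex.exp l).re ≤ ‖l‖ * exp ‖l‖ := by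
    have := Complex.abs_re_le_norm (Complex.exp l - 1)
    rw [Complex.sub_re, Complex.one_re] at this
    have h4 := neg_abs_le ((Complex.exp l).re - 1)
    linarith
  have h5 : ‖l‖ ≤ V * x ^ 2 / 4 := by
    calc ‖l‖ ≤ C * V * x ^ 3 := hl
      _ = (V * x ^ 2) * (C * x) := by ring
      _ ≤ (V * x ^ 2) * (1 / 4) := by gcongr
      _ = V * x ^ 2 / 4 := by ring
  have h60 : 0 ≤ C * V * x ^ 3 := le_trans (norm_nonneg l) hl
  have h6 : ‖l‖ * exp ‖l‖ ≤ C * V * x ^ 3 * exp (V * x ^ 2 / 4) := by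
    gcongr
  have h7 : exp (-(V * x ^ 2 / 2)) * exp (V * x ^ 2 / 4) = exp (-(V * x ^ 2 / 4)) := by
    rw [← Real.exp_add]; congr 1; ring
  have h8 : 0 < exp (-(V * x ^ 2 / 2)) := exp_pos _
  have h9 : 1 - C * V * x ^ 3 * exp (V * x ^ 2 / 4) ≤ (Complex.exp l).re := by linarith
  calc exp (-(V * x ^ 2 / 2)) - C * V * x ^ 3 * exp (-(V * x ^ 2 / 4)) =
      exp (-(V * x ^ 2 / 2)) * (1 - C * V * x ^ 3 * exp (V * x ^ 2 / 4)) := by
        rw [← h7]; ring
    _ ≤ exp (-(V * x ^ 2 / 2)) * (Complex.exp l).re := by gcongr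

/-- lower bound for the centred circle function by the norm -/
theorem circ_norm (p : ℝ[X]) (r x B : ℝ) (k : ℕ)
    (h : ‖aeval ((r:ℂ) * Complex.exp ((x:ℂ) * Complex.I)) p‖ ≤ B) : -B ≤ circ p r k x := by
  unfold circ
  have h1 := Complex.abs_re_le_norm ((aeval ((r:ℂ) * Complex.exp ((x:ℂ) * Complex.I)) p) *
    Complex.exp (-(((k:ℂ) * (x:ℂ)) * Complex.I)))
  have h2 : ‖Complex.exp (-(((k:ℂ) * (x:ℂ)) * Complex.I))‖ = 1 := by
    have : -(((k:ℂ) * (x:ℂ)) * Complex.I) = ((-(k * x) : ℝ):ℂ) * Complex.I := by push_cast; ring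
    rw [this, Complex.norm_exp_ofReal_mul_I]
  rw [norm_mul, h2, mul_one] at h1
  have h3 := neg_abs_le ((aeval ((r:ℂ) * Complex.exp ((x:ℂ) * Complex.I)) p) *
    Complex.exp (-(((k:ℂ) * (x:ℂ)) * Complex.I))).re
  linarith

/-- **Saddle point lemma**, core form: radius `r`, variance `v ^ 2`. -/
theorem saddle_core (p : ℝ[X]) (hp : ∀ j, 0 ≤ p.coeff j) (k : ℕ) (hk : 1 ≤ k)
    (r v d C₃ C₂ c₂ : ℝ) (hr : 0 < r) (hP : 0 < p.eval r) (hd0 : 0 < d) (hd1 : d ≤ 1)
    (hC₃ : 0 ≤ C₃) (hC₃d : C₃ * d ≤ 1 / 4) (hC₂ : 0 ≤ C₂) (hc₂ : 0 < c₂)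
    (hv : 960 * C₃ + 480 * C₂ / c₂ ^ 2 < v ∧ 1 / d ≤ v) (hv0 : 0 < v)
    (hloc : ∀ x ∈ Icc 0 d, ∃ l : ℂ, ‖l‖ ≤ C₃ * v ^ 2 * x ^ 3 ∧
      aeval ((r:ℂ) * Complex.exp ((x:ℂ) * Complex.I)) p =
      ((p.eval r : ℝ):ℂ) *
        Complex.exp (((k:ℂ) * (x:ℂ)) * Complex.I - ((v ^ 2 * x ^ 2 / 2 : ℝ):ℂ) + l))
    (htail : ∀ x ∈ Icc d π, ‖aeval ((r:ℂ) * Complex.exp ((x:ℂ) * Complex.I)) p‖ ≤
      C₂ * exp (-(c₂ * v ^ 2)) * p.eval r) :
    p.coeff (k - 1) * p.coeff (k + 1) < p.coeff k ^ 2 := by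
  have hpi := Real.pi_gt_three
  obtain ⟨hv1, hv2⟩ := hv
  set P := p.eval r with hPdef
  have hcont := continuous_circ p r k
  have hi : ∀ a b : ℝ, IntervalIntegrable (fun x : ℝ => circ p r k x * (1 - cos x)) volume a b := by
    intro a b
    apply Continuous.intervalIntegrable
    fun_prop
  have hsplit := intervalIntegral.integral_add_adjacent_intervals (hi 0 d) (hi d π)
  -- the tail
  have hdpi : d ≤ π := by linarith
  have hT : -(C₂ * exp (-(c₂ * v ^ 2)) * P * 2 * π) ≤ ∫ x in d..π, circ p r k x * (1 - cos x) := by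
    have h1 : ∫ x in d..π, -(C₂ * exp (-(c₂ * v ^ 2)) * P * 2) ≤
        ∫ x in d..π, circ p r k x * (1 - cos x) := by
      apply intervalIntegral.integral_mono_on hdpi
      · apply Continuous.intervalIntegrable; fun_prop
      · exact hi _ _
      · intro x hx
        have h2 := circ_norm p r x _ k (htail x hx)
        have h3 : 0 ≤ 1 - cos x := by have := Real.cos_le_one x; linarith
        have h4 : 1 - cos x ≤ 2 := by have := Real.neg_one_le_cos x; linarith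
        have h5 : 0 ≤ C₂ * exp (-(c₂ * v ^ 2)) * P := by positivity
        calc -(C₂ * exp (-(c₂ * v ^ 2)) * P * 2) ≤ -(C₂ * exp (-(c₂ * v ^ 2)) * P * (1 - cos x)) := by
              apply neg_le_neg; gcongr
          _ = -(C₂ * exp (-(c₂ * v ^ 2)) * P) * (1 - cos x) := by ring
          _ ≤ circ p r k x * (1 - cos x) := by gcongr
    rw [intervalIntegral.integral_const, smul_eq_mul] at h1
    have h5 : 0 ≤ C₂ * exp (-(c₂ * v ^ 2)) * P * 2 := by positivity
    have h6 : (π - d) * (C₂ * exp (-(c₂ * v ^ 2)) * P * 2) ≤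
        π * (C₂ * exp (-(c₂ * v ^ 2)) * P * 2) := by
      apply mul_le_mul_of_nonneg_right _ h5; linarith
    nlinarith
  -- the local part
  have hL : P * (1 / (30 * v ^ 3) - 32 * C₃ / v ^ 4) ≤ ∫ x in (0:ℝ)..d, circ p r k x * (1 - cos x) := by
    have h1 : ∫ x in (0:ℝ)..d, P * (exp (-(v ^ 2 * x ^ 2 / 2)) * (1 - cos x) -
        C₃ * v ^ 2 / 2 * (x ^ 5 * exp (-(v ^ 2 * x ^ 2 / 4)))) ≤
        ∫ x in (0:ℝ)..d, circ p r k x * (1 - cos x) := by
      apply intervalIntegral.integral_mono_on hd0.le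
      · apply Continuous.intervalIntegrable; fun_prop
      · exact hi _ _
      · intro x hx
        obtain ⟨l, hl, hl'⟩ := hloc x hx
        have hCx : C₃ * x ≤ 1 / 4 := le_trans (mul_le_mul_of_nonneg_left hx.2 hC₃) hC₃d
        have h2 := circ_local p r (v ^ 2) C₃ x k hP.le (by positivity) hCx l hl hl'
        have h3 : 0 ≤ 1 - cos x := by have := Real.cos_le_one x; linarith
        have h4 := one_sub_cos_upper x
        have hx0 := hx.1
        have h5 : C₃ * v ^ 2 * x ^ 3 * exp (-(v ^ 2 * x ^ 2 / 4)) * (1 - cos x) ≤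
            C₃ * v ^ 2 * x ^ 3 * exp (-(v ^ 2 * x ^ 2 / 4)) * (x ^ 2 / 2) := by
          gcongr
        calc P * (exp (-(v ^ 2 * x ^ 2 / 2)) * (1 - cos x) -
              C₃ * v ^ 2 / 2 * (x ^ 5 * exp (-(v ^ 2 * x ^ 2 / 4)))) =
              P * (exp (-(v ^ 2 * x ^ 2 / 2)) * (1 - cos x) -
              C₃ * v ^ 2 * x ^ 3 * exp (-(v ^ 2 * x ^ 2 / 4)) * (x ^ 2 / 2)) := by ring
          _ ≤ P * (exp (-(v ^ 2 * x ^ 2 / 2)) * (1 - cos x) -
              C₃ * v ^ 2 * x ^ 3 * exp (-(v ^ 2 * x ^ 2 / 4)) * (1 - cos x)) := by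
              apply mul_le_mul_of_nonneg_left _ hP.le
              linarith
          _ = (P * (exp (-(v ^ 2 * x ^ 2 / 2)) -
              C₃ * v ^ 2 * x ^ 3 * exp (-(v ^ 2 * x ^ 2 / 4)))) * (1 - cos x) := by ring
          _ ≤ circ p r k x * (1 - cos x) := by gcongr
    have hi1 : IntervalIntegrable (fun x : ℝ => exp (-(v ^ 2 * x ^ 2 / 2)) * (1 - cos x)) volume 0 d := by
      apply Continuous.intervalIntegrable; fun_prop
    have hi2 : IntervalIntegrable (fun x : ℝ => C₃ * v ^ 2 / 2 *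
        (x ^ 5 * exp (-(v ^ 2 * x ^ 2 / 4)))) volume 0 d := by
      apply Continuous.intervalIntegrable; fun_prop
    rw [intervalIntegral.integral_const_mul, intervalIntegral.integral_sub hi1 hi2,
      intervalIntegral.integral_const_mul] at h1
    refine le_trans ?_ h1
    apply mul_le_mul_of_nonneg_left _ hP.le
    have hv2' : 1 / v ≤ d := by
      rw [div_le_iff₀ hd0] at hv2
      rw [div_le_iff₀ hv0]
      linarith
    have h6 := gauss_main v d hv0 hv2' hd1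
    have h7 := gauss_moment (v ^ 2) d (by positivity)
    have h8 : C₃ * v ^ 2 / 2 * ∫ x in (0:ℝ)..d, x ^ 5 * exp (-(v ^ 2 * x ^ 2 / 4)) ≤
        C₃ * v ^ 2 / 2 * (64 / (v ^ 2) ^ 3) := by gcongr
    have h9 : C₃ * v ^ 2 / 2 * (64 / (v ^ 2) ^ 3) = 32 * C₃ / v ^ 4 := by
      field_simp
      ring
    rw [h9] at h8
    linarith
  -- positivity of the integral
  have hpos : 0 < ∫ x in (0:ℝ)..π, circ p r k x * (1 - cos x) := by
    rw [← hsplit]
    have h1 := exp_tail c₂ v hc₂ hv0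
    have h2 : C₂ * exp (-(c₂ * v ^ 2)) * P * 2 * π ≤ C₂ * (2 / (c₂ ^ 2 * v ^ 4)) * P * 2 * 4 := by
      have : π ≤ 4 := Real.pi_le_four
      gcongr
    have h3 : 0 < P * (1 / (30 * v ^ 3) - 32 * C₃ / v ^ 4) - C₂ * (2 / (c₂ ^ 2 * v ^ 4)) * P * 2 * 4 := by
      have h4 : P * (1 / (30 * v ^ 3) - 32 * C₃ / v ^ 4) - C₂ * (2 / (c₂ ^ 2 * v ^ 4)) * P * 2 * 4 =
          P / (30 * v ^ 4) * (v - (960 * C₃ + 480 * C₂ / c₂ ^ 2)) := by
        field_simp
        ring
      rw [h4]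
      apply mul_pos (by positivity)
      linarith
    linarith
  rw [integral_circ p r k hk] at hpos
  have hpos' : (p.coeff (k - 1) * r ^ (k - 1) + p.coeff (k + 1) * r ^ (k + 1)) / 2 <
      p.coeff k * r ^ k := by
    by_contra hcon
    push Not at hcon
    have : π * (p.coeff k * r ^ k -
        (p.coeff (k - 1) * r ^ (k - 1) + p.coeff (k + 1) * r ^ (k + 1)) / 2) ≤ 0 :=
      mul_nonpos_of_nonneg_of_nonpos Real.pi_pos.le (by linarith)
    linarith
  have ha := hp (k - 1)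
  have hb := hp (k + 1)
  have hc := hp k
  have hrk : r ^ (k - 1) * r ^ (k + 1) = (r ^ k) ^ 2 := by
    rw [← pow_add, ← pow_mul]
    congr 1
    omega
  have h10 : (p.coeff (k - 1) * p.coeff (k + 1)) * (r ^ k) ^ 2 < p.coeff k ^ 2 * (r ^ k) ^ 2 := by
    set A := p.coeff (k - 1) * r ^ (k - 1) with hA
    set B := p.coeff (k + 1) * r ^ (k + 1) with hB
    have hA0 : 0 ≤ A := by positivity
    have hB0 : 0 ≤ B := by positivity
    have e1 : (p.coeff (k - 1) * p.coeff (k + 1)) * (r ^ k) ^ 2 = A * B := by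
      rw [hA, hB, ← hrk]; ring
    rw [e1]
    nlinarith [sq_nonneg (A - B)]
  exact lt_of_mul_lt_mul_right h10 (by positivity)

/-- **Saddle point lemma [SP]**: for constants `d, C₃, C₂, c₂` there is `V₀` such that every
polynomial with nonnegative real coefficients which satisfies the local expansion (LOC) with
variance `V` and mean `k` and the tail bound (TAIL) on the circle of radius `r` satisfies
`p_(k-1) p_(k+1) < p_k ^ 2` when `V ≥ V₀`. -/
theorem saddle (d C₃ C₂ c₂ : ℝ) (hd : 0 < d) (hC₃ : 0 < C₃) (hC₂ : 0 < C₂) (hc₂ : 0 < c₂) :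
    ∃ V₀ : ℝ, 0 < V₀ ∧ ∀ (p : ℝ[X]), (∀ j, 0 ≤ p.coeff j) → ∀ k : ℕ, 1 ≤ k →
      ∀ r V : ℝ, 0 < r → 0 < p.eval r → V₀ ≤ V →
      (∀ x : ℝ, 0 ≤ x → x ≤ d → ∃ l : ℂ, ‖l‖ ≤ C₃ * V * x ^ 3 ∧
        aeval ((r:ℂ) * Complex.exp ((x:ℂ) * Complex.I)) p =
        ((p.eval r : ℝ):ℂ) *
          Complex.exp (((k:ℂ) * (x:ℂ)) * Complex.I - ((V * x ^ 2 / 2 : ℝ):ℂ) + l)) →
      (∀ x : ℝ, 0 ≤ x → x ≤ π → ‖aeval ((r:ℂ) * Complex.exp ((x:ℂ) * Complex.I)) p‖ ≤
        C₂ * exp (-(c₂ * V * (1 - cos x))) * p.eval r) →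
      p.coeff (k - 1) * p.coeff (k + 1) < p.coeff k ^ 2 := by
  set e : ℝ := min (min d 1) (1 / (4 * C₃)) with he
  have he0 : 0 < e := by
    apply lt_min (lt_min hd one_pos); positivity
  have he1 : e ≤ 1 := le_trans (min_le_left _ _) (min_le_right _ _)
  have hed : e ≤ d := le_trans (min_le_left _ _) (min_le_left _ _)
  have heC : C₃ * e ≤ 1 / 4 := by
    have : e ≤ 1 / (4 * C₃) := min_le_right _ _
    calc C₃ * e ≤ C₃ * (1 / (4 * C₃)) := by gcongr
      _ = 1 / 4 := by field_simp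
  have hpi := Real.pi_gt_three
  set c : ℝ := c₂ * (e ^ 2 / 5) with hc
  have hc0 : 0 < c := by positivity
  set v₀ : ℝ := 960 * C₃ + 480 * C₂ / c ^ 2 + 1 / e with hv₀
  have hv₀0 : 0 < v₀ := by positivity
  refine ⟨(v₀ + 1) ^ 2, by positivity, ?_⟩
  intro p hp k hk r V hr hP hV hloc htail
  have hV0 : 0 < V := lt_of_lt_of_le (by positivity) hV
  have hsq : (√V) ^ 2 = V := Real.sq_sqrt hV0.le
  have hv : v₀ + 1 ≤ √V := Real.le_sqrt_of_sq_le hV
  refine saddle_core p hp k hk r (√V) e C₃ C₂ c hr hP he0 he1 hC₃.le heC hC₂.le hc0 ?_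
    (by linarith) ?_ ?_
  · have h1 : 0 < 480 * C₂ / c ^ 2 := by positivity
    have h2 : 0 < 1 / e := by positivity
    constructor
    · linarith
    · linarith
  · intro x hx
    rw [hsq]
    exact hloc x hx.1 (le_trans hx.2 hed)
  · intro x hx
    rw [hsq]
    refine le_trans (htail x (le_trans he0.le hx.1) hx.2) ?_
    have h1 : e ^ 2 / 5 ≤ 1 - cos x := by
      have h2 := one_sub_cos_lower (x := x) (le_trans he0.le hx.1) hx.2
      have h3 : e ^ 2 ≤ x ^ 2 := by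
        have := hx.1
        gcongr
      linarith
    have h4 : c * V ≤ c₂ * V * (1 - cos x) := by
      calc c * V = c₂ * V * (e ^ 2 / 5) := by rw [hc]; ring
        _ ≤ c₂ * V * (1 - cos x) := by gcongr
    gcongr

/-! ### The local expansion from three derivatives -/

/-- Taylor with a bound for the third derivative. -/
theorem taylor_three (L L₁ L₂ L₃ : ℝ → ℂ) (d M : ℝ) (hM : 0 ≤ M)
    (h0 : ∀ x ∈ Icc (0:ℝ) d, HasDerivAt L (L₁ x) x)
    (h1 : ∀ x ∈ Icc (0:ℝ) d, HasDerivAt L₁ (L₂ x) x)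
    (h2 : ∀ x ∈ Icc (0:ℝ) d, HasDerivAt L₂ (L₃ x) x)
    (h3 : ∀ x ∈ Icc (0:ℝ) d, ‖L₃ x‖ ≤ M) :
    ∀ x ∈ Icc (0:ℝ) d, ‖L x - (L 0 + L₁ 0 * x + L₂ 0 * x ^ 2 / 2)‖ ≤ M * x ^ 3 := by
  have key : ∀ (F F' : ℝ → ℂ) (x B : ℝ), x ∈ Icc (0:ℝ) d →
      (∀ y ∈ Icc (0:ℝ) d, HasDerivAt F (F' y) y) → (∀ y ∈ Icc (0:ℝ) x, ‖F' y‖ ≤ B) →
      ‖F x - F 0‖ ≤ B * x := by
    intro F F' x B hx hF hB
    have := norm_image_sub_le_of_norm_deriv_le_segment' (f := F) (f' := F') (a := 0) (b := x)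
      (C := B)
      (fun y hy => (hF y ⟨hy.1, le_trans hy.2 hx.2⟩).hasDerivWithinAt)
      (fun y hy => hB y ⟨hy.1, hy.2.le⟩) x ⟨hx.1, le_rfl⟩
    simpa using this
  have hofReal : ∀ x : ℝ, HasDerivAt (fun y : ℝ => (y:ℂ)) 1 x := fun x =>
    (hasDerivAt_id x).ofReal_comp
  -- second derivative
  have a2 : ∀ x ∈ Icc (0:ℝ) d, ‖L₂ x - L₂ 0‖ ≤ M * x := by
    intro x hx
    exact key L₂ L₃ x M hx h2 (fun y hy => h3 y ⟨hy.1, le_trans hy.2 hx.2⟩)
  have a1 : ∀ x ∈ Icc (0:ℝ) d, ‖L₁ x - (L₁ 0 + L₂ 0 * x)‖ ≤ M * x ^ 2 := by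
    intro x hx
    have hd1 : ∀ y ∈ Icc (0:ℝ) d, HasDerivAt (fun y : ℝ => L₁ y - L₂ 0 * y) (L₂ y - L₂ 0 * 1) y :=
      fun y hy => (h1 y hy).sub ((hofReal y).const_mul (L₂ 0))
    have := key _ _ x (M * x) hx hd1 (fun y hy => by
      have := a2 y ⟨hy.1, le_trans hy.2 hx.2⟩
      rw [mul_one]
      exact le_trans this (mul_le_mul_of_nonneg_left hy.2 hM))
    have e : L₁ x - (L₁ 0 + L₂ 0 * x) = (L₁ x - L₂ 0 * x) - (L₁ 0 - L₂ 0 * ((0:ℝ):ℂ)) := by
      push_cast; ring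
    rw [e]
    calc _ ≤ M * x * x := this
      _ = M * x ^ 2 := by ring
  intro x hx
  have hd1 : ∀ y ∈ Icc (0:ℝ) d, HasDerivAt (fun y : ℝ => L y - (L₁ 0 * y + L₂ 0 / 2 * (y:ℂ) ^ 2))
      (L₁ y - (L₁ 0 * 1 + L₂ 0 / 2 * ((2:ℕ) * (y:ℂ) ^ (2 - 1) * 1))) y := by
    intro y hy
    exact (h0 y hy).sub (((hofReal y).const_mul (L₁ 0)).add
      (((hofReal y).pow 2).const_mul (L₂ 0 / 2)))
  have := key _ _ x (M * x ^ 2) hx hd1 (fun y hy => by
    have h := a1 y ⟨hy.1, le_trans hy.2 hx.2⟩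
    have e : L₁ y - (L₁ 0 * 1 + L₂ 0 / 2 * ((2:ℕ) * (y:ℂ) ^ (2 - 1) * 1)) =
        L₁ y - (L₁ 0 + L₂ 0 * y) := by push_cast; ring
    rw [e]
    refine le_trans h ?_
    have hy0 := hy.1
    have hy1 := hy.2
    gcongr)
  have e : L x - (L 0 + L₁ 0 * x + L₂ 0 * x ^ 2 / 2) =
      (L x - (L₁ 0 * x + L₂ 0 / 2 * (x:ℂ) ^ 2)) -
        (L 0 - (L₁ 0 * ((0:ℝ):ℂ) + L₂ 0 / 2 * (((0:ℝ):ℂ)) ^ 2)) := by
    push_cast; ring
  rw [e]
  calc _ ≤ M * x ^ 2 * x := this
    _ = M * x ^ 3 := by ring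

/-- (LOC) from a logarithm with three derivatives along the arc. -/
theorem loc_of_deriv (p : ℝ[X]) (k : ℕ) (r V d C : ℝ) (hC : 0 ≤ C) (hV : 0 ≤ V)
    (L L₁ L₂ L₃ : ℝ → ℂ)
    (hL : ∀ x ∈ Icc (0:ℝ) d, aeval ((r:ℂ) * Complex.exp ((x:ℂ) * Complex.I)) p =
      ((p.eval r : ℝ):ℂ) * Complex.exp (L x))
    (h0 : ∀ x ∈ Icc (0:ℝ) d, HasDerivAt L (L₁ x) x)
    (h1 : ∀ x ∈ Icc (0:ℝ) d, HasDerivAt L₁ (L₂ x) x)
    (h2 : ∀ x ∈ Icc (0:ℝ) d, HasDerivAt L₂ (L₃ x) x)
    (h3 : ∀ x ∈ Icc (0:ℝ) d, ‖L₃ x‖ ≤ C * V)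
    (hL0 : L 0 = 0) (hL1 : L₁ 0 = (k:ℂ) * Complex.I) (hL2 : L₂ 0 = -(V:ℂ)) :
    ∀ x : ℝ, 0 ≤ x → x ≤ d → ∃ l : ℂ, ‖l‖ ≤ C * V * x ^ 3 ∧
        aeval ((r:ℂ) * Complex.exp ((x:ℂ) * Complex.I)) p =
        ((p.eval r : ℝ):ℂ) *
          Complex.exp (((k:ℂ) * (x:ℂ)) * Complex.I - ((V * x ^ 2 / 2 : ℝ):ℂ) + l) := by
  intro x hx0 hxd
  refine ⟨L x - (L 0 + L₁ 0 * x + L₂ 0 * x ^ 2 / 2),
    taylor_three L L₁ L₂ L₃ d (C * V) (by positivity) h0 h1 h2 h3 x ⟨hx0, hxd⟩, ?_⟩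
  rw [hL x ⟨hx0, hxd⟩]
  congr 2
  rw [hL0, hL1, hL2]
  push_cast
  ring

/-! ### The radius with mean exactly `k` -/

theorem exists_radius (p : ℝ[X]) (hp : ∀ j, 0 ≤ p.coeff j) (h0 : 0 < p.coeff 0) (k : ℕ)
    (hk : 1 ≤ k) (hkd : k < p.natDegree) :
    ∃ r : ℝ, 0 < r ∧ 0 < p.eval r ∧ r * (derivative p).eval r = (k:ℝ) * p.eval r := by
  have hpos : ∀ r : ℝ, 0 ≤ r → 0 < p.eval r := by
    intro r hr
    rw [Polynomial.eval_eq_sum_range]
    have h1 : p.coeff 0 * r ^ 0 ≤ ∑ i ∈ Finset.range (p.natDegree + 1), p.coeff i * r ^ i :=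
      Finset.single_le_sum (f := fun i => p.coeff i * r ^ i)
        (fun i _ => mul_nonneg (hp i) (pow_nonneg hr i)) (Finset.mem_range.2 (by omega))
    simp at h1
    linarith
  have hp0 : p ≠ 0 := by
    intro h
    rw [h] at h0
    simp at h0
  set q : ℝ[X] := X * derivative p - C (k:ℝ) * p with hq
  have hqc : ∀ j, q.coeff j = ((j:ℝ) - k) * p.coeff j := by
    intro j
    rw [hq, Polynomial.coeff_sub, Polynomial.coeff_C_mul]
    rcases j with _ | j
    · simp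
    · rw [Polynomial.coeff_X_mul, Polynomial.coeff_derivative]
      push_cast
      ring
  have hlead : 0 < q.coeff p.natDegree := by
    rw [hqc]
    have h1 : 0 < p.leadingCoeff :=
      lt_of_le_of_ne (hp _) (Ne.symm (Polynomial.leadingCoeff_ne_zero.2 hp0))
    have h2 : (k:ℝ) < (p.natDegree:ℝ) := by exact_mod_cast hkd
    apply mul_pos (by linarith)
    exact h1
  have hqd : q.natDegree = p.natDegree := by
    apply le_antisymm
    · rw [Polynomial.natDegree_le_iff_coeff_eq_zero]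
      intro j hj
      rw [hqc, Polynomial.coeff_eq_zero_of_natDegree_lt hj, mul_zero]
    · exact Polynomial.le_natDegree_of_ne_zero hlead.ne'
  have hql : 0 ≤ q.leadingCoeff := by
    rw [Polynomial.leadingCoeff, hqd]; exact hlead.le
  have hqdeg : 0 < q.degree := by
    rw [← Polynomial.natDegree_pos_iff_degree_pos, hqd]
    omega
  have htend := Polynomial.tendsto_atTop_of_leadingCoeff_nonneg q hqdeg hql
  obtain ⟨R, hR0, hR⟩ : ∃ R : ℝ, 0 ≤ R ∧ 0 < q.eval R := by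
    have h1 := (htend.eventually_gt_atTop 0).and (Filter.eventually_ge_atTop (0:ℝ))
    obtain ⟨R, h2, h3⟩ := h1.exists
    exact ⟨R, h3, h2⟩
  have hq0 : q.eval 0 < 0 := by
    rw [← Polynomial.coeff_zero_eq_eval_zero, hqc]
    have : (0:ℝ) < k := by exact_mod_cast hk
    push_cast
    nlinarith
  have hivt := intermediate_value_Icc hR0 (f := fun x => q.eval x) (by fun_prop)
  obtain ⟨r, hr, hr0⟩ := hivt ⟨hq0.le, hR.le⟩
  have hrne : r ≠ 0 := by
    rintro rfl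
    simp only at hr0
    linarith
  have hrpos : 0 < r := lt_of_le_of_ne hr.1 (Ne.symm hrne)
  refine ⟨r, hrpos, hpos r hrpos.le, ?_⟩
  simp only [hq, Polynomial.eval_sub, Polynomial.eval_mul, Polynomial.eval_X,
    Polynomial.eval_C] at hr0
  linarith

end Helper92.EV
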