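import Pool.Agent.Helper92.EV.SaddlePoint

/-!
# [EV] CORE (f): IVT + local expansion + tail + saddle point lemma
-/

namespace Helper92.EV

open Real MeasureTheory Set Polynomial

/-- the mean `r P'(r) / P(r)` -/
noncomputable def mean (P : ℝ[X]) (r : ℝ) : ℝ := r * (derivative P).eval r / P.eval r

theorem eval_pos_of_coeff (P : ℝ[X]) (hp : ∀ j, 0 ≤ P.coeff j) (h0 : 0 < P.coeff 0) (r : ℝ)
    (hr : 0 ≤ r) : 0 < P.eval r := by
  rw [Polynomial.eval_eq_sum_range]
  have h1 : P.coeff 0 * r ^ 0 ≤ ∑ i ∈ Finset.range (P.natDegree + 1), P.coeff i * r ^ i :=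
    Finset.single_le_sum (f := fun i => P.coeff i * r ^ i)
      (fun i _ => mul_nonneg (hp i) (pow_nonneg hr i)) (Finset.mem_range.2 (by omega))
  simp at h1
  linarith

/-- radius with mean exactly `k`, at most `R` when the mean at `R` is at least `k` -/
theorem exists_radius_le (P : ℝ[X]) (hp : ∀ j, 0 ≤ P.coeff j) (h0 : 0 < P.coeff 0) (k : ℕ)
    (hk : 1 ≤ k) (R : ℝ) (hR : 0 < R) (hm : (k:ℝ) ≤ mean P R) :
    ∃ r : ℝ, 0 < r ∧ r ≤ R ∧ mean P r = k := by
  set q : ℝ[X] := X * derivative P - C (k:ℝ) * P with hq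
  have hqe : ∀ x, q.eval x = x * (derivative P).eval x - k * P.eval x := by
    intro x; rw [hq]; simp
  have hPR := eval_pos_of_coeff P hp h0 R hR.le
  have hqR : 0 ≤ q.eval R := by
    rw [hqe]
    unfold mean at hm
    rw [le_div_iff₀ hPR] at hm
    linarith
  have hq0 : q.eval 0 < 0 := by
    rw [hqe, ← Polynomial.coeff_zero_eq_eval_zero P]
    have : (0:ℝ) < k := by exact_mod_cast hk
    nlinarith
  have hivt := intermediate_value_Icc hR.le (f := fun x => q.eval x) (by fun_prop)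
  obtain ⟨r, hr, hr0⟩ := hivt ⟨hq0.le, hqR⟩
  have hrne : r ≠ 0 := by
    rintro rfl
    simp only at hr0
    linarith
  have hrpos : 0 < r := lt_of_le_of_ne hr.1 (Ne.symm hrne)
  refine ⟨r, hrpos, hr.2, ?_⟩
  have hPr := eval_pos_of_coeff P hp h0 r hrpos.le
  have hr1 : q.eval r = 0 := hr0
  rw [hqe] at hr1
  unfold mean
  rw [div_eq_iff hPr.ne']
  linarith

/-- **CORE (f)**: constants `d, K, v, C₁` (local expansion), `cT, CT` (tail), `c₄, R` (top).
For `L` large, every polynomial with nonnegative coefficients, positive constant coefficient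
and the stated local expansion, mean bound, tail bound and top mean is strictly log-concave at
every `k` between `K (C₁ + 1) log L` and `natDegree - c₄ L`. -/
theorem plug (d K v C₁ cT CT c₄ R : ℝ) (hd : 0 < d) (hK : 0 < K) (hv : 0 < v) (hC₁ : 0 < C₁)
    (hcT : 0 < cT) (hCT : 0 < CT) (hR : 0 < R) :
    ∃ L₁ : ℝ, 1 < L₁ ∧ ∀ L : ℝ, L₁ ≤ L → ∀ (P : ℝ[X]) (V : ℝ → ℝ), (∀ j, 0 ≤ P.coeff j) →
      0 < P.coeff 0 →
      (∀ r, 0 < r → r ≤ R → C₁ * log L ≤ L * √r →
        v * (L * √r) ≤ V r ∧ V r ≤ K * (L * √r) ∧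
        ∀ x : ℝ, |x| ≤ d → ∃ E : ℂ, ‖E‖ ≤ K * (L * √r) * |x| ^ 3 ∧
          aeval ((r:ℂ) * Complex.exp ((x:ℂ) * Complex.I)) P = ((P.eval r : ℝ):ℂ) *
            Complex.exp (((mean P r : ℝ):ℂ) * (x:ℂ) * Complex.I - ((V r * x ^ 2 / 2 : ℝ):ℂ) + E)) →
      (∀ r, 0 < r → r ≤ R → mean P r ≤ K * (L * √r + log L)) →
      (∀ r, 0 < r → r ≤ R → C₁ * log L ≤ L * √r → ∀ x : ℝ, |x| ≤ π →
        ‖aeval ((r:ℂ) * Complex.exp ((x:ℂ) * Complex.I)) P‖ ≤
          CT * exp (-(cT * (L * √r) * (1 - cos x))) * P.eval r) →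
      ((P.natDegree : ℝ) - c₄ * L ≤ mean P R) →
      ∀ k : ℕ, K * (C₁ + 1) * log L ≤ k → (k:ℝ) ≤ (P.natDegree : ℝ) - c₄ * L →
        P.coeff (k - 1) * P.coeff (k + 1) < P.coeff k ^ 2 := by
  obtain ⟨V₀, hV₀, hsad⟩ := saddle d (K / v) CT (cT / K) hd (by positivity) hCT (by positivity)
  set L₁ : ℝ := exp (V₀ / (v * C₁)) with hL₁
  have hL₁1 : 1 < L₁ := by
    rw [hL₁]; apply Real.one_lt_exp_iff.2; positivity
  refine ⟨L₁, hL₁1, ?_⟩
  intro L hL P V hp h0 hloc hmean htail htop k hk1 hk2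
  have hL1 : 1 < L := lt_of_lt_of_le hL₁1 hL
  have hL0 : 0 < L := by linarith
  have hlog : V₀ / (v * C₁) ≤ log L := by
    rw [Real.le_log_iff_exp_le hL0]; exact hL
  have hlog0 : 0 < log L := Real.log_pos hL1
  have hkpos : 0 < (k:ℝ) := lt_of_lt_of_le (by positivity) hk1
  have hk : 1 ≤ k := by
    have : 0 < k := by exact_mod_cast hkpos
    omega
  obtain ⟨r, hr0, hrR, hr⟩ := exists_radius_le P hp h0 k hk R hR (le_trans hk2 htop)
  have hCr : C₁ * log L ≤ L * √r := by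
    have h1 := hmean r hr0 hrR
    rw [hr] at h1
    have h2 : K * (C₁ + 1) * log L ≤ K * (L * √r + log L) := le_trans hk1 h1
    rw [mul_assoc] at h2
    have h3 := le_of_mul_le_mul_left h2 hK
    linarith
  obtain ⟨hV1, hV2, hE⟩ := hloc r hr0 hrR hCr
  have hVlow : V₀ ≤ V r := by
    have h1 : V₀ ≤ log L * (v * C₁) := by
      rwa [div_le_iff₀ (by positivity)] at hlog
    have h2 : v * (C₁ * log L) ≤ v * (L * √r) := by gcongr
    linarith
  have hV0 : 0 < V r := lt_of_lt_of_le hV₀ hVlow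
  have hPr := eval_pos_of_coeff P hp h0 r hr0.le
  refine hsad P hp k hk r (V r) hr0 hPr hVlow ?_ ?_
  · intro x hx0 hxd
    obtain ⟨E, hE1, hE2⟩ := hE x (by rw [abs_of_nonneg hx0]; exact hxd)
    refine ⟨E, ?_, ?_⟩
    · rw [abs_of_nonneg hx0] at hE1
      refine le_trans hE1 ?_
      have h1 : K * (L * √r) ≤ K / v * V r := by
        calc K * (L * √r) = K / v * (v * (L * √r)) := by field_simp
          _ ≤ K / v * V r := by gcongr
      gcongr
    · rw [hE2, hr]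
      push_cast
      ring_nf
  · intro x hx0 hxπ
    refine le_trans (htail r hr0 hrR hCr x (by rw [abs_of_nonneg hx0]; exact hxπ)) ?_
    have h3 : 0 ≤ 1 - cos x := by have := Real.cos_le_one x; linarith
    have h4 : cT / K * V r * (1 - cos x) ≤ cT * (L * √r) * (1 - cos x) := by
      have : cT / K * V r ≤ cT * (L * √r) := by
        calc cT / K * V r ≤ cT / K * (K * (L * √r)) := by gcongr
          _ = cT * (L * √r) := by field_simp
      gcongr
    gcongr

/-- the tail hypothesis of `plug` from the two ranges `r ≤ r₀` (real negative zeros) and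
`r₀ ≤ r ≤ R` (windows) -/
theorem tail_join (r₀ R c₁ K₁ c₃ K₃ : ℝ) (hR : 0 < R) (hc₃ : 0 ≤ c₃)
    (P : ℝ[X]) (L C : ℝ) (hL : 0 ≤ L)
    (hP : ∀ r : ℝ, 0 < r → 0 < P.eval r)
    (h1 : ∀ r, 0 < r → r ≤ r₀ → C ≤ L * √r → ∀ x : ℝ, |x| ≤ π →
        ‖aeval ((r:ℂ) * Complex.exp ((x:ℂ) * Complex.I)) P‖ ≤
          K₁ * exp (-(c₁ * (L * √r) * (1 - cos x))) * P.eval r)
    (h3 : ∀ r, r₀ ≤ r → r ≤ R → ∀ x : ℝ, |x| ≤ π →
        ‖aeval ((r:ℂ) * Complex.exp ((x:ℂ) * Complex.I)) P‖ ≤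
          K₃ * exp (-(c₃ * L * (1 - cos x))) * P.eval r) :
    ∀ r, 0 < r → r ≤ R → C ≤ L * √r → ∀ x : ℝ, |x| ≤ π →
        ‖aeval ((r:ℂ) * Complex.exp ((x:ℂ) * Complex.I)) P‖ ≤
          max K₁ K₃ * exp (-(min c₁ (c₃ / √R) * (L * √r) * (1 - cos x))) * P.eval r := by
  intro r hr hrR hC x hx
  have hx1 : 0 ≤ 1 - cos x := by have := Real.cos_le_one x; linarith
  have hPr := hP r hr
  have hs : 0 < √R := Real.sqrt_pos.2 hR
  have hLr : 0 ≤ L * √r := by positivity
  rcases le_total r r₀ with h | h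
  · refine le_trans (h1 r hr h hC x hx) ?_
    have e1 : exp (-(c₁ * (L * √r) * (1 - cos x))) ≤
        exp (-(min c₁ (c₃ / √R) * (L * √r) * (1 - cos x))) := by
      apply Real.exp_le_exp.2
      apply neg_le_neg
      have := min_le_left c₁ (c₃ / √R)
      gcongr
    have e2 := le_max_left K₁ K₃
    have e3 := exp_pos (-(c₁ * (L * √r) * (1 - cos x)))
    rcases le_total 0 K₁ with hK | hK
    · have : 0 ≤ max K₁ K₃ := le_trans hK e2
      gcongr
    · have e4 : K₁ * exp (-(c₁ * (L * √r) * (1 - cos x))) * P.eval r ≤ 0 :=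
        mul_nonpos_of_nonpos_of_nonneg (mul_nonpos_of_nonpos_of_nonneg hK e3.le) hPr.le
      have e5 := norm_nonneg (aeval ((r:ℂ) * Complex.exp ((x:ℂ) * Complex.I)) P)
      have e6 : 0 ≤ K₁ * exp (-(c₁ * (L * √r) * (1 - cos x))) * P.eval r :=
        le_trans e5 (h1 r hr h hC x hx)
      have e7 : K₁ * exp (-(c₁ * (L * √r) * (1 - cos x))) * P.eval r = 0 := le_antisymm e4 e6
      have e8 : K₁ = 0 := by
        by_contra hne
        have : K₁ * exp (-(c₁ * (L * √r) * (1 - cos x))) * P.eval r ≠ 0 :=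
          mul_ne_zero (mul_ne_zero hne e3.ne') hPr.ne'
        exact this e7
      rw [e7]
      have : 0 ≤ max K₁ K₃ := by rw [← e8]; exact e2
      positivity
  · refine le_trans (h3 r h hrR x hx) ?_
    have e1 : exp (-(c₃ * L * (1 - cos x))) ≤
        exp (-(min c₁ (c₃ / √R) * (L * √r) * (1 - cos x))) := by
      apply Real.exp_le_exp.2
      apply neg_le_neg
      have h5 := min_le_right c₁ (c₃ / √R)
      have h6 : √r ≤ √R := Real.sqrt_le_sqrt hrR
      calc min c₁ (c₃ / √R) * (L * √r) * (1 - cos x) ≤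
          (c₃ / √R) * (L * √r) * (1 - cos x) := by gcongr
        _ ≤ (c₃ / √R) * (L * √R) * (1 - cos x) := by gcongr
        _ = c₃ * L * (1 - cos x) := by field_simp
    have e2 := le_max_right K₁ K₃
    have e3 := exp_pos (-(c₃ * L * (1 - cos x)))
    have e5 := norm_nonneg (aeval ((r:ℂ) * Complex.exp ((x:ℂ) * Complex.I)) P)
    have e6 : 0 ≤ K₃ * exp (-(c₃ * L * (1 - cos x))) * P.eval r := le_trans e5 (h3 r h hrR x hx)
    have hK : 0 ≤ K₃ := by
      by_contra hneg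
      push Not at hneg
      have : K₃ * exp (-(c₃ * L * (1 - cos x))) * P.eval r < 0 :=
        mul_neg_of_neg_of_pos (mul_neg_of_neg_of_pos hneg e3) hPr
      linarith
    have : 0 ≤ max K₁ K₃ := le_trans hK e2
    gcongr

end Helper92.EV
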